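import Mathlib
import Pool.Agent.Y859.SF.Stm

/-!
# Project SF (helper859): dyadic null sets have natural density zero
-/

set_option autoImplicit false

namespace Pool.Agent.Y338.SF

open Finset Pool.Agent.Y859.SF

open scoped Classical in
/-- linear bound with an arbitrarily small slope -/
theorem DENS.lin (S : ℕ → Prop) (hS : Null S) (δ : ℝ) (hδ : 0 < δ) :
    ∃ C : ℝ, 0 ≤ C ∧ ∀ n : ℕ, (((Icc 1 n).filter S).card : ℝ) ≤ C + δ * n := by
  obtain ⟨N₀, hN₀⟩ := hS (δ / 4) (by positivity)
  refine ⟨2 * N₀ + 2, by positivity, ?_⟩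
  intro n
  induction n using Nat.strong_induction_on with
  | _ n ih =>
    by_cases hn : n ≤ 2 * N₀ + 2
    · have h1 : ((Icc 1 n).filter S).card ≤ n := by
        refine (card_filter_le _ _).trans ?_
        simp
      have h2 : (((Icc 1 n).filter S).card : ℝ) ≤ n := by exact_mod_cast h1
      have h3 : (n : ℝ) ≤ 2 * N₀ + 2 := by exact_mod_cast hn
      have h4 : 0 ≤ δ * n := by positivity
      linarith
    · push Not at hn
      set N : ℕ := (n + 1) / 2 with hN
      have hnN : n ≤ 2 * N := by omega
      have hNn : N < n := by omega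
      have hNN : N₀ ≤ N := by omega
      obtain ⟨B, hB, hBm⟩ := hN₀ N hNN
      have hsub : (Icc 1 n).filter S ⊆ (Icc 1 N).filter S ∪ B := by
        intro m hm
        rw [mem_filter, mem_Icc] at hm
        rw [mem_union, mem_filter, mem_Icc]
        by_cases hmN : m ≤ N
        · exact Or.inl ⟨⟨hm.1.1, hmN⟩, hm.2⟩
        · exact Or.inr (hBm m (by omega) (by omega) hm.2)
      have hcard : ((Icc 1 n).filter S).card ≤ ((Icc 1 N).filter S).card + B.card :=
        (card_le_card hsub).trans (card_union_le _ _)
      have hcardR : (((Icc 1 n).filter S).card : ℝ) ≤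
          (((Icc 1 N).filter S).card : ℝ) + (B.card : ℝ) := by exact_mod_cast hcard
      have hih := ih N hNn
      have h2N : 2 * (N : ℝ) ≤ n + 1 := by
        have : 2 * N ≤ n + 1 := by omega
        exact_mod_cast this
      have hn3 : (3 : ℝ) ≤ n := by
        have : 3 ≤ n := by omega
        exact_mod_cast this
      nlinarith

theorem t_DENS : S_DENS := by
  classical
  intro S hS
  rw [Metric.tendsto_atTop]
  intro ε hε
  obtain ⟨C, hC, hCn⟩ := DENS.lin S hS (ε / 2) (by positivity)
  obtain ⟨N, hN⟩ := exists_nat_gt (2 * C / ε)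
  refine ⟨N + 1, fun n hn => ?_⟩
  have hnpos : (0 : ℝ) < n := by
    have : 0 < n := by omega
    exact_mod_cast this
  have hnN : (N : ℝ) ≤ n := by
    have : N ≤ n := by omega
    exact_mod_cast this
  have h1 := hCn n
  have h2 : 2 * C < ε * n := by
    have : 2 * C / ε < n := lt_of_lt_of_le hN hnN
    rw [div_lt_iff₀ hε] at this
    linarith
  rw [Real.dist_eq, sub_zero, abs_of_nonneg (by positivity), div_lt_iff₀ hnpos]
  have h3 : (((Icc 1 n).filter S).card : ℝ) < ε * n := by
    linarith
  exact h3

end Pool.Agent.Y338.SF
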